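import Pool.Agent.Helper56.RC.StF

/-!
Project RC, module LOWC: the scalar inequality of option C.
-/

open Real

namespace Pool.Agent.Helper42.RC

open Helper49.LT Helper49.RC Helper87.RC Helper44.RC Helper56.RC

lemma cs (h : StTrg) (k v : ℤ) (hv : cT k = v) (x : ℝ) (hx : x = k * Real.pi / 120) :
    |Real.cos x - (v : ℝ) / 10 ^ 6| ≤ 1 / 10 ^ 5 := by
  have := h k
  rw [hv] at this
  rw [hx]
  exact this

lemma sn (h : StTrg) (k v : ℤ) (hv : cT k = v) (x : ℝ) (hx : x - Real.pi / 2 = k * Real.pi / 120) :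
    |Real.sin x - (v : ℝ) / 10 ^ 6| ≤ 1 / 10 ^ 5 := by
  have h1 := cs h k v hv (x - Real.pi / 2) hx
  rwa [Real.cos_sub_pi_div_two] at h1

lemma mulbd {x y a b : ℝ} (hx : |x - a| ≤ 1 / 10 ^ 5) (hy : |y - b| ≤ 1 / 10 ^ 5)
    (hx1 : |x| ≤ 1) (hb : |b| ≤ 1) : |x * y - a * b| ≤ 2 / 10 ^ 5 := by
  have e : x * y - a * b = x * (y - b) + (x - a) * b := by ring
  rw [e]
  calc |x * (y - b) + (x - a) * b| ≤ |x * (y - b)| + |(x - a) * b| := abs_add_le _ _
    _ = |x| * |y - b| + |x - a| * |b| := by rw [abs_mul, abs_mul]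
    _ ≤ 1 * (1 / 10 ^ 5) + (1 / 10 ^ 5) * 1 := by gcongr
    _ = 2 / 10 ^ 5 := by ring

lemma absle {x a U : ℝ} (hx : |x - a| ≤ 2 / 10 ^ 5) (hU : |a| + 2 / 10 ^ 5 ≤ U) : |x| ≤ U := by
  have h1 : |x| ≤ |x - a| + |a| := by
    have := abs_add_le (x - a) a
    simpa using this
  linarith

/-- the scaled bound of one coupling coefficient -/
lemma kkb (h : StTrg) (j k1 v1 k2 v2 : ℤ) (hj : (j : ℝ) ≠ 0) (h1 : cT k1 = v1) (h2 : cT k2 = v2)
    (e1 : Real.pi * (1 + (j : ℝ)) / 3 + j * (Real.pi / 30) = k1 * Real.pi / 120)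
    (e2 : (j : ℝ) * (2 * Real.pi / 15) / 2 - Real.pi / 2 = k2 * Real.pi / 120)
    (hb : |(v2 : ℝ) / 10 ^ 6| ≤ 1) (U : ℝ)
    (hU : 4 / |(j : ℝ)| * (|(v1 : ℝ) / 10 ^ 6 * ((v2 : ℝ) / 10 ^ 6)| + 2 / 10 ^ 5) ≤ U) :
    |KK (Real.pi / 30) (2 * Real.pi / 15) j| ≤ U := by
  have a1 := cs h k1 v1 h1 _ e1
  have a2 := sn h k2 v2 h2 _ e2
  have a3 := mulbd a1 a2 (Real.abs_cos_le_one _) hb
  have a4 := absle a3 le_rfl
  unfold KK RR
  have e : Real.cos (Real.pi * (1 + (j : ℝ)) / 3 + j * (Real.pi / 30)) *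
      (4 / (j : ℝ) * Real.sin (j * (2 * Real.pi / 15) / 2)) =
      (4 / (j : ℝ)) * (Real.cos (Real.pi * (1 + (j : ℝ)) / 3 + j * (Real.pi / 30)) *
        Real.sin (j * (2 * Real.pi / 15) / 2)) := by ring
  rw [e, abs_mul, abs_div]
  have h4 : |(4 : ℝ)| = 4 := by norm_num
  rw [h4]
  refine le_trans ?_ hU
  have : 0 ≤ 4 / |(j : ℝ)| := by positivity
  exact mul_le_mul_of_nonneg_left a4 this

lemma km1 (h : StTrg) : |KK (Real.pi / 30) (2 * Real.pi / 15) (-1)| ≤ 8272 / 10000 :=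
  kkb h (-1) (-4) 994522 (-68) (-207912) (by norm_num) (by decide +kernel) (by decide +kernel)
    (by push_cast; ring) (by push_cast; ring) (by norm_num [abs_le]) _ (by norm_num [abs_of_neg, abs_of_pos])

lemma k5 (h : StTrg) : |KK (Real.pi / 30) (2 * Real.pi / 15) 5| ≤ 6001 / 10000 :=
  kkb h 5 260 866025 (-20) 866025 (by norm_num) (by decide +kernel) (by decide +kernel)
    (by push_cast; ring) (by push_cast; ring) (by norm_num [abs_le]) _ (by norm_num [abs_of_neg, abs_of_pos])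

lemma k11 (h : StTrg) : |KK (Real.pi / 30) (2 * Real.pi / 15) 11| ≤ 11 / 100 :=
  kkb h 11 524 406737 28 743145 (by norm_num) (by decide +kernel) (by decide +kernel)
    (by push_cast; ring) (by push_cast; ring) (by norm_num [abs_le]) _ (by norm_num [abs_of_neg, abs_of_pos])

lemma k17 (h : StTrg) : |KK (Real.pi / 30) (2 * Real.pi / 15) 17| ≤ 2 / 100 :=
  kkb h 17 788 (-207912) 76 (-406737) (by norm_num) (by decide +kernel) (by decide +kernel)
    (by push_cast; ring) (by push_cast; ring) (by norm_num [abs_le]) _ (by norm_num [abs_of_neg, abs_of_pos])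

lemma km13 (h : StTrg) : |KK (Real.pi / 30) (2 * Real.pi / 15) (-13)| ≤ 261 / 10000 :=
  kkb h (-13) (-532) 207912 (-164) (-406737) (by norm_num) (by decide +kernel) (by decide +kernel)
    (by push_cast; ring) (by push_cast; ring) (by norm_num [abs_le]) _ (by norm_num [abs_of_neg, abs_of_pos])

lemma km7 (h : StTrg) : |KK (Real.pi / 30) (2 * Real.pi / 15) (-7)| ≤ 4224 / 10000 :=
  kkb h (-7) (-268) 743145 (-116) (-994522) (by norm_num) (by decide +kernel) (by decide +kernel)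
    (by push_cast; ring) (by push_cast; ring) (by norm_num [abs_le]) _ (by norm_num [abs_of_neg, abs_of_pos])

lemma v4 (h : StTrg) : vC thC (Real.pi / 30) (2 * Real.pi / 15) 4 ≤ 947 / 10000 := by
  have a1 := km1 h
  have a2 := k5 h
  have a3 := k11 h
  have a4 := k17 h
  unfold vC aK wt thC
  norm_num
  linarith

lemma vm2 (h : StTrg) : vC thC (Real.pi / 30) (2 * Real.pi / 15) (-2) ≤ 239 / 10000 := by
  have a1 := km13 h
  have a2 := k5 h
  have a3 := km7 h
  unfold vC aK wt thC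
  norm_num
  linarith

lemma bc1 (h : StTrg) : bC thC (Real.pi / 30) (2 * Real.pi / 15) 1 ≤ 1386 / 1000 := by
  have a1 := km7 h
  have a2 := k5 h
  have a3 := k11 h
  unfold bC aK wt thC
  norm_num
  linarith

lemma kk1 (h : StTrg) : K1 (Real.pi / 30) (2 * Real.pi / 15) ≤ 8645 / 10000 := by
  have a1 := km1 h
  unfold K1
  linarith

lemma ccb (h : StTrg) : 8935 / 10000 ≤
    Real.cos (2 * (Real.pi / 30)) * Real.cos (2 * Real.pi / 15) := by
  have a1 := cs h 8 978148 (by decide +kernel) (2 * (Real.pi / 30)) (by push_cast; ring)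
  have a2 := cs h 16 913545 (by decide +kernel) (2 * Real.pi / 15) (by push_cast; ring)
  have a3 := mulbd a1 a2 (Real.abs_cos_le_one _) (by norm_num [abs_le])
  have := abs_le.1 a3
  norm_num at this ⊢
  linarith [this.1]

lemma g1b (h : StTrg) : 3588 / 10000 ≤ Helper56.RC.gam (Real.pi / 30) (2 * Real.pi / 15) 1 := by
  have a1 := cs h 168 (-309017) (by decide +kernel)
    (2 * Real.pi * (((1 : ℤ) : ℝ) + 1) / 3 + 2 * ((1 : ℤ) : ℝ) * (Real.pi / 30)) (by push_cast; ring)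
  have a2 := cs h 16 913545 (by decide +kernel) (((1 : ℤ) : ℝ) * (2 * Real.pi / 15))
    (by push_cast; ring)
  have a3 := mulbd a1 a2 (Real.abs_cos_le_one _) (by norm_num [abs_le])
  have := abs_le.1 a3
  unfold Helper56.RC.gam
  push_cast at this ⊢
  linarith [this.1]

lemma s4b (h : StTrg) : 4488 / 10000 ≤ sgm (Real.pi / 30) (2 * Real.pi / 15) 4 := by
  have a1 := cs h 352 (-978148) (by decide +kernel)
    (2 * ((4 : ℤ) : ℝ) * (Real.pi / 3 + Real.pi / 30)) (by push_cast; ring)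
  have a2 := cs h 64 (-104528) (by decide +kernel) (((4 : ℤ) : ℝ) * (2 * Real.pi / 15))
    (by push_cast; ring)
  have a3 := mulbd a1 a2 (Real.abs_cos_le_one _) (by norm_num [abs_le])
  have := abs_le.1 a3
  unfold sgm
  push_cast at this ⊢
  linarith [this.2]

lemma s2b (h : StTrg) : sgm (Real.pi / 30) (2 * Real.pi / 15) 2 ≤ 535 / 1000 := by
  have a1 := cs h 176 (-104528) (by decide +kernel)
    (2 * ((2 : ℤ) : ℝ) * (Real.pi / 3 + Real.pi / 30)) (by push_cast; ring)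
  have a2 := cs h 32 669131 (by decide +kernel) (((2 : ℤ) : ℝ) * (2 * Real.pi / 15))
    (by push_cast; ring)
  have a3 := mulbd a1 a2 (Real.abs_cos_le_one _) (by norm_num [abs_le])
  have := abs_le.1 a3
  unfold sgm
  push_cast at this ⊢
  linarith [this.1]

lemma aab (h : StTrg) : 5107 / 10000 ≤ AA (Real.pi / 30) (2 * Real.pi / 15) := by
  have a1 := cs h 84 (-587785) (by decide +kernel)
    (2 * Real.pi / 3 + Real.pi / 30) (by push_cast; ring)
  have a2 := sn h (-52) 207912 (by decide +kernel) (2 * Real.pi / 15 / 2) (by push_cast; ring)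
  have a3 := mulbd a1 a2 (Real.abs_cos_le_one _) (by norm_num [abs_le])
  have := abs_le.1 a3
  unfold AA
  push_cast at this ⊢
  linarith [this.2]

lemma bbb (h : StTrg) : |BB (Real.pi / 30) (2 * Real.pi / 15)| ≤ 1 / 10000 := by
  have a1 := cs h 180 0 (by decide +kernel)
    (4 * Real.pi / 3 + 5 * (Real.pi / 30)) (by push_cast; ring)
  have a2 := sn h (-20) 866025 (by decide +kernel) (5 * (2 * Real.pi / 15) / 2) (by push_cast; ring)
  have a3 := mulbd a1 a2 (Real.abs_cos_le_one _) (by norm_num [abs_le])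
  have := abs_le.1 a3
  unfold BB
  push_cast at this ⊢
  rw [abs_le]
  constructor
  · linarith [this.1]
  · linarith [this.2]

lemma xxb (h : StTrg) : |Real.cos (2 * Real.pi / 3 + 2 * (Real.pi / 30)) *
    Real.cos (2 * Real.pi / 15) + 61128 / 100000| ≤ 3 / 100000 := by
  have a1 := cs h 88 (-669131) (by decide +kernel)
    (2 * Real.pi / 3 + 2 * (Real.pi / 30)) (by push_cast; ring)
  have a2 := cs h 16 913545 (by decide +kernel) (2 * Real.pi / 15)
    (by push_cast; ring)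
  have a3 := mulbd a1 a2 (Real.abs_cos_le_one _) (by norm_num [abs_le])
  have := abs_le.1 a3
  push_cast at this ⊢
  rw [abs_le]
  constructor
  · linarith [this.1]
  · linarith [this.2]

/-- the polynomial inequality in `x`, `a`, `z2`, `q` -/
lemma core (x a z2 q : ℝ) (hx : 6 / 10 ≤ x) (hz : a ^ 2 ≤ z2)
    (hq : q = 47 / 100 * (x ^ 2 + z2 + x * a)) (hq2 : q ≤ 1 / 5) :
    0 ≤ -(14455 / 100000) + 17566 / 10000 * q - 33 / 200 * q ^ 2 + 3316 / 10000 * z2
      - 10404 / 10000 * x ^ 2 + 5107 / 10000 * x - 1 / 10000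
      - (4829 / 10000 - 20783 / 10000 * q + 8645 / 10000 * x) ^ 2 / (4 * (64 / 10)) := by
  have hq0 : 3 / 4 * (47 / 100) * x ^ 2 ≤ q := by
    rw [hq]; nlinarith [sq_nonneg (a + x / 2)]
  have hq1 : 126 / 1000 ≤ q := by nlinarith
  have hx2 : x ≤ 7534 / 10000 := by
    by_contra hc
    push Not at hc
    nlinarith
  have hqq : q ^ 2 ≤ 326 / 1000 * q - 252 / 10000 := by nlinarith
  set L : ℝ := 4829 / 10000 - 20783 / 10000 * q + 8645 / 10000 * x with hL
  have hL1 : 58 / 100 ≤ L := by rw [hL]; linarith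
  have hL2 : L ≤ 74 / 100 := by
    rw [hL]; nlinarith [sq_nonneg (x - 59 / 100)]
  have hLL : L ^ 2 ≤ 132 / 100 * L - 58 / 100 * (74 / 100) := by nlinarith
  have hL3 : L ^ 2 / (4 * (64 / 10)) ≤ (132 / 100 * L - 58 / 100 * (74 / 100)) / (4 * (64 / 10)) := by
    gcongr
  have hxx : 0 ≤ (x - 6 / 10) * (7534 / 10000 - x) :=
    mul_nonneg (by linarith) (by linarith)
  have hs := sq_nonneg (a + 36 / 100 * x)
  have hs' := sq_nonneg (a + 35 / 100 * x)
  have e1 : (132 / 100 * L - 58 / 100 * (74 / 100)) / (4 * (64 / 10)) =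
      132 / 2560 * (4829 / 10000 - 20783 / 10000 * q + 8645 / 10000 * x)
        - 58 * 74 / 256000 := by rw [hL]; ring
  have e2 : -(14455 / 100000) + 17566 / 10000 * q - 33 / 200 * (326 / 1000 * q - 252 / 10000)
      + 3316 / 10000 * z2
      - 10404 / 10000 * x ^ 2 + 5107 / 10000 * x - 1 / 10000
      - (132 / 2560 * (4829 / 10000 - 20783 / 10000 * q + 8645 / 10000 * x)
        - 58 * 74 / 256000) ≥ 0 := by
    rw [hq]
    nlinarith [hs, hs', hxx, hz]
  linarith [hL3, hqq, e1, e2]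

/-- MODULE LOWC. -/
theorem hLOWC (h : StTrg) : StLowC := by
  intro x a z2 y0 x1 q qh hx hx1 haz hxy hy hqh hq hqq
  have b1 := v4 h
  have b2 := vm2 h
  have b3 := bc1 h
  have b4 := kk1 h
  have b5 := ccb h
  have b6 := g1b h
  have b7 := s4b h
  have b8 := s2b h
  have b9 := aab h
  have b10 := abs_le.1 (bbb h)
  have b11 := abs_le.1 (xxb h)
  have s1 : 173205 / 100000 ≤ Real.sqrt 3 := Real.le_sqrt_of_sq_le (by norm_num)
  have s2 : Real.sqrt 3 ≤ 173206 / 100000 := by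
    rw [Real.sqrt_le_left (by norm_num)]; norm_num
  have hy0 : 0 ≤ y0 := le_trans (abs_nonneg _) hxy
  have hy1 : y0 ≤ 32 / 100 := by nlinarith
  obtain ⟨hxa, hxb⟩ := abs_le.1 hxy
  have hc := core x a z2 q (by linarith) haz hq (by linarith)
  have hq0 : 3 / 4 * (47 / 100) * x ^ 2 ≤ q := by
    rw [hq]; nlinarith [sq_nonneg (a + x / 2)]
  have hq1 : 126 / 1000 ≤ q := by nlinarith
  have hz0 : 0 ≤ z2 := le_trans (sq_nonneg a) haz
  have ha1 : |a| ≤ 1 := by
    rw [abs_le]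
    have : a ^ 2 ≤ 1 := by
      have : 47 / 100 * (3 / 4 * a ^ 2) ≤ q := by
        rw [hq]; nlinarith [sq_nonneg (x + a / 2)]
      nlinarith
    constructor <;> nlinarith
  obtain ⟨ha2, ha3⟩ := abs_le.1 ha1
  set BBv := BB (Real.pi / 30) (2 * Real.pi / 15) with hBB
  set AAv := AA (Real.pi / 30) (2 * Real.pi / 15) with hAA
  set K1v := K1 (Real.pi / 30) (2 * Real.pi / 15) with hK1
  set v4v := vC thC (Real.pi / 30) (2 * Real.pi / 15) 4 with hv4
  set vmv := vC thC (Real.pi / 30) (2 * Real.pi / 15) (-2) with hvm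
  set bcv := bC thC (Real.pi / 30) (2 * Real.pi / 15) 1 with hbc
  set g1v := Helper56.RC.gam (Real.pi / 30) (2 * Real.pi / 15) 1 with hg1
  set s4v := sgm (Real.pi / 30) (2 * Real.pi / 15) 4 with hs4
  set s2v := sgm (Real.pi / 30) (2 * Real.pi / 15) 2 with hs2
  set ccv := Real.cos (2 * (Real.pi / 30)) * Real.cos (2 * Real.pi / 15) with hcc
  set xxv := Real.cos (2 * Real.pi / 3 + 2 * (Real.pi / 30)) * Real.cos (2 * Real.pi / 15) with hxx
  set R := Real.sqrt 3 with hR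
  have hform : LowF (Real.pi / 30) (2 * Real.pi / 15) (33 / 500) (27 / 5000) thC x a z2 y0 x1 q qh =
      5 + R / 10 + 19 / 20 * (2 + 2 * ccv) - 891 / 100
      + FSc (1 / 20) (33 / 200) * q - 33 / 200 * q ^ 2 + 33 / 500 * qh - 33 / 200 * qh * (2 * q + qh)
      + (19 / 20 * s4v - v4v) * z2 - (2 * (19 / 20) * s2v + vmv) * x ^ 2
      + AAv * x + BBv * a - 27 / 5000
      + (1 + 19 / 20 * (4 * g1v) + 891 / 100 - 17 / 100 - bcv) * y0 ^ 2
      - (2 - R / 20 + FSc (1 / 20) (33 / 200) / 2) * x1 ^ 2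
      - (if 0 ≤ x1 then 52 / 100 * x1 ^ 2 else 0)
      + (4 - 3 * R / 20 + 19 / 20 * (-2 + 4 * xxv)
          + F1c (1 / 20) (33 / 200) * (q + qh)) * x1
      - K1v * x * y0 := by
    unfold LowF
    rw [hcc, hxx, hBB, hAA, hK1, hv4, hvm, hbc, hg1, hs4, hs2, hR]
    ring_nf
  rw [hform]
  have hFS : FSc (1 / 20) (33 / 200) = 167 / 100 + R / 20 := by unfold FSc; ring
  have hF1 : F1c (1 / 20) (33 / 200) = 2165 / 1000 - R / 20 := by unfold F1c; ring
  rw [hFS, hF1]
  -- the pieces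
  have p1 : 17566 / 10000 * q ≤ (167 / 100 + R / 20) * q :=
    mul_le_mul_of_nonneg_right (by linarith) (by linarith)
  have p2 : 0 ≤ 33 / 500 * qh - 33 / 200 * qh * (2 * q + qh) := by
    have : 0 ≤ qh * (33 / 500 - 33 / 200 * (2 * q + qh)) := mul_nonneg hqh (by linarith)
    linarith
  have p3 : 3316 / 10000 * z2 ≤ (19 / 20 * s4v - v4v) * z2 :=
    mul_le_mul_of_nonneg_right (by linarith) hz0
  have p4 : (2 * (19 / 20) * s2v + vmv) * x ^ 2 ≤ 10404 / 10000 * x ^ 2 :=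
    mul_le_mul_of_nonneg_right (by linarith) (sq_nonneg x)
  have p5 : 5107 / 10000 * x ≤ AAv * x := mul_le_mul_of_nonneg_right b9 (by linarith)
  have p6 : -(1 / 10000) ≤ BBv * a := by
    have : |BBv * a| ≤ 1 / 10000 * 1 := by
      rw [abs_mul]
      exact mul_le_mul (abs_le.2 b10) ha1 (abs_nonneg _) (by norm_num)
    have := (abs_le.1 this).1
    linarith
  have p7 : 9717 / 1000 * y0 ^ 2 ≤ (1 + 19 / 20 * (4 * g1v) + 891 / 100 - 17 / 100 - bcv) * y0 ^ 2 :=
    mul_le_mul_of_nonneg_right (by linarith) (sq_nonneg y0)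
  have p8 : K1v * x * y0 ≤ 8645 / 10000 * x * y0 := by
    have : 0 ≤ x * y0 := mul_nonneg (by linarith) hy0
    nlinarith
  -- the form in `y0`, `x1`
  have hxs : x1 ^ 2 ≤ y0 ^ 2 := by nlinarith
  have key : -(4829 / 10000 - 20783 / 10000 * q + 8645 / 10000 * x) ^ 2 / (4 * (64 / 10)) ≤
      9717 / 1000 * y0 ^ 2 - (2 - R / 20 + (167 / 100 + R / 20) / 2) * x1 ^ 2
      - (if 0 ≤ x1 then 52 / 100 * x1 ^ 2 else 0)
      + (4 - 3 * R / 20 + 19 / 20 * (-2 + 4 * xxv) + (2165 / 1000 - R / 20) * (q + qh)) * x1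
      - 8645 / 10000 * x * y0 := by
    have hL : 0 ≤ (y0 * (64 / 10) * 2 - (4829 / 10000 - 20783 / 10000 * q + 8645 / 10000 * x)) ^ 2 :=
      sq_nonneg _
    have hxc : (2 - R / 20 + (167 / 100 + R / 20) / 2) * x1 ^ 2 ≤ 2792 / 1000 * y0 ^ 2 := by
      have : (2 - R / 20 + (167 / 100 + R / 20) / 2) * x1 ^ 2 ≤ 2792 / 1000 * x1 ^ 2 :=
        mul_le_mul_of_nonneg_right (by linarith) (sq_nonneg _)
      linarith
    have hlin : -(4829 / 10000 - 20783 / 10000 * q) * y0 ≤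
        (4 - 3 * R / 20 + 19 / 20 * (-2 + 4 * xxv) + (2165 / 1000 - R / 20) * (q + qh)) * x1 := by
      rcases le_or_gt 0 x1 with h0 | h0
      · have c1 : -(4829 / 10000 - 20783 / 10000 * q) ≤
            4 - 3 * R / 20 + 19 / 20 * (-2 + 4 * xxv) + (2165 / 1000 - R / 20) * (q + qh) := by
          have : 20783 / 10000 * q ≤ (2165 / 1000 - R / 20) * (q + qh) := by
            have := mul_nonneg (show (0 : ℝ) ≤ 2165 / 1000 - R / 20 - 20783 / 10000 by linarith)
              (show 0 ≤ q by linarith)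
            have := mul_nonneg (show (0 : ℝ) ≤ 2165 / 1000 - R / 20 by linarith) hqh
            nlinarith
          linarith [b11.1]
        have c2 : 0 ≤ 4829 / 10000 - 20783 / 10000 * q := by linarith
        nlinarith [mul_le_mul_of_nonneg_right c1 h0]
      · have c1 : 4 - 3 * R / 20 + 19 / 20 * (-2 + 4 * xxv) + (2165 / 1000 - R / 20) * (q + qh) ≤ 0 := by
          have : (2165 / 1000 - R / 20) * (q + qh) ≤ (2165 / 1000 - R / 20) * (1 / 5) :=
            mul_le_mul_of_nonneg_left hqq (by linarith)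
          linarith [b11.2]
        have c2 : 0 ≤ 4829 / 10000 - 20783 / 10000 * q := by linarith
        nlinarith [mul_nonneg c2 hy0, mul_nonneg_of_nonpos_of_nonpos c1 h0.le]
    have hif : (if 0 ≤ x1 then 52 / 100 * x1 ^ 2 else 0) ≤ 52 / 100 * y0 ^ 2 := by
      split_ifs
      · linarith
      · positivity
    have hy2 := sq_nonneg y0
    have hfin : -(4829 / 10000 - 20783 / 10000 * q + 8645 / 10000 * x) ^ 2 / (4 * (64 / 10)) ≤
        (64 / 10) * y0 ^ 2 - (4829 / 10000 - 20783 / 10000 * q) * y0 - 8645 / 10000 * x * y0 := by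
      have e3 : (64 / 10) * y0 ^ 2 - (4829 / 10000 - 20783 / 10000 * q) * y0
          - 8645 / 10000 * x * y0
          - -(4829 / 10000 - 20783 / 10000 * q + 8645 / 10000 * x) ^ 2 / (4 * (64 / 10)) =
          (y0 * (64 / 10) * 2 - (4829 / 10000 - 20783 / 10000 * q + 8645 / 10000 * x)) ^ 2
            / (4 * (64 / 10)) := by ring
      have e4 : 0 ≤ (y0 * (64 / 10) * 2
          - (4829 / 10000 - 20783 / 10000 * q + 8645 / 10000 * x)) ^ 2 / (4 * (64 / 10)) := by
        positivity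
      linarith
    linarith
  have key2 : -(4829 / 10000 - 20783 / 10000 * q + 8645 / 10000 * x) ^ 2 / (4 * (64 / 10)) =
      -((4829 / 10000 - 20783 / 10000 * q + 8645 / 10000 * x) ^ 2 / (4 * (64 / 10))) := by ring
  linarith

end Pool.Agent.Helper42.RC
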